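import Pool.Agent.J4.H53.Cx.Rat

/-!
# The criteria for a finite set with a group action
-/

set_option autoImplicit false
set_option linter.unusedSectionVars false

open scoped Classical BigOperators

namespace Pool.Agent.J4.H53.Cx

open Pool.Agent.Helper884 Pool.Agent.H254R3.IN
open Pool.Agent.Q11.CZ (IsHalf a0 T)

variable {G : Type} [Group G] [Fintype G]

/-- rational values -/
def RatV (χ : G → ℂ) : Prop := ∀ g : G, ∃ q : ℚ, χ g = q

/-- rational real parts of the values -/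
def RatR (χ : G → ℂ) : Prop := ∀ g : G, ∃ q : ℚ, (χ g).re = q

lemma all_mem {V : Submodule ℂ (G → ℂ)} (h1 : (fun _ => 1) ∈ V) {S T : Set (G → ℂ)}
    (h : sp1 S = sp1 T) : (∀ f ∈ S, f ∈ V) ↔ ∀ f ∈ T, f ∈ V := by
  constructor
  · intro hS f hf
    exact sp1_le h1 hS (h ▸ mem_sp1 hf)
  · intro hT f hf
    exact sp1_le h1 hT (h ▸ mem_sp1 hf)

section crit

variable {c : G} (hc : ∀ g, c * g = g * c) (hc2 : c * c = 1)
variable {X : Type} [Fintype X] [MulAction G X]
variable [MulAction.IsPretransitive G X] (hex : ∃ Φ : Finset X, IsHalf c Φ)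
include hc hc2 hex

lemma critA {V : Submodule ℂ (G → ℂ)} (h1 : (fun _ => 1) ∈ V) :
    (∀ Φ : Finset X, IsHalf c Φ → ∀ x : X, ac x Φ ∈ V) ↔ ∀ χ, Occ c X χ → χ ∈ V := by
  have h := all_mem h1 (spanA hc hc2 hex)
  constructor
  · intro h2 χ hχ
    refine h.mp ?_ χ hχ
    rintro f ⟨x, Φ, hΦ, rfl⟩
    exact h2 Φ hΦ x
  · intro h2 Φ hΦ x
    exact h.mpr h2 _ ⟨x, Φ, hΦ, rfl⟩

lemma critT {V : Submodule ℂ (G → ℂ)} (h1 : (fun _ => 1) ∈ V) :
    (∀ Φ : Finset X, IsHalf c Φ → Tc Φ ∈ V) ↔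
      ∀ χ, Occ c X χ → (fun g => χ g + χ g⁻¹) ∈ V := by
  have h := all_mem h1 (spanT hc hc2 hex)
  constructor
  · intro h2 χ hχ
    refine h.mp ?_ _ ⟨χ, hχ, rfl⟩
    rintro f ⟨Φ, hΦ, rfl⟩
    exact h2 Φ hΦ
  · intro h2 Φ hΦ
    refine h.mpr ?_ _ ⟨Φ, hΦ, rfl⟩
    rintro f ⟨χ, hχ, rfl⟩
    exact h2 χ hχ

theorem critAZ : (∀ Φ : Finset X, IsHalf c Φ → ∀ x : X, ac x Φ ∈ ZC G) ↔
    ∀ χ, Occ c X χ → RatV χ := by
  rw [critA hc hc2 hex ZC_one]
  exact forall_congr' fun χ => ⟨fun h hχ => (irr_rat_iff hχ.1).mp (h hχ),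
    fun h hχ => (irr_rat_iff hχ.1).mpr (h hχ)⟩

theorem critTZ : (∀ Φ : Finset X, IsHalf c Φ → Tc Φ ∈ ZC G) ↔
    ∀ χ, Occ c X χ → RatR χ := by
  rw [critT hc hc2 hex ZC_one]
  exact forall_congr' fun χ => ⟨fun h hχ => (sym_rat_iff hχ.1).mp (h hχ),
    fun h hχ => (sym_rat_iff hχ.1).mpr (h hχ)⟩

theorem critATw : (∀ Φ : Finset X, IsHalf c Φ → ∀ x : X, ac x Φ ∈ TwC G) ↔
    ∀ χ, Occ c X χ → χ 1 ≠ 1 → RatV χ := by
  rw [critA hc hc2 hex TwC_one]
  refine forall_congr' fun χ => ⟨fun h hχ h1 => ?_, fun h hχ => ?_⟩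
  · exact (irr_rat_iff hχ.1).mp ((irr_ZC_iff hχ.1 h1).mp (h hχ))
  · by_cases h1 : χ 1 = 1
    · exact lin_TwC hχ.1 h1
    · exact (irr_ZC_iff hχ.1 h1).mpr ((irr_rat_iff hχ.1).mpr (h hχ h1))

theorem critTTw : (∀ Φ : Finset X, IsHalf c Φ → Tc Φ ∈ TwC G) ↔
    ∀ χ, Occ c X χ → χ 1 ≠ 1 → RatR χ := by
  rw [critT hc hc2 hex TwC_one]
  refine forall_congr' fun χ => ⟨fun h hχ h1 => ?_, fun h hχ => ?_⟩
  · exact (sym_rat_iff hχ.1).mp ((sym_ZC_iff hχ.1 h1).mp (h hχ))
  · by_cases h1 : χ 1 = 1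
    · exact lin_sym_TwC hχ.1 h1
    · exact (sym_ZC_iff hχ.1 h1).mpr ((sym_rat_iff hχ.1).mpr (h hχ h1))

end crit

/-- the indicator function of a conjugacy class -/
noncomputable def ind (a : G) (g : G) : ℂ := if IsConj a g then 1 else 0

omit [Fintype G] in
lemma conj_cl (a g y : G) : IsConj a (y * g * y⁻¹) ↔ IsConj a g := by
  have h1 : IsConj g (y * g * y⁻¹) := isConj_iff.mpr ⟨y, rfl⟩
  exact ⟨fun h => h.trans h1.symm, fun h => h.trans h1⟩

omit [Fintype G] in
lemma ind_cl (a : G) : IsCl (ind a) := by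
  intro g y
  unfold ind
  simp only [conj_cl]

omit [Fintype G] in
lemma ind_pos {a g : G} (h : IsConj a g) : ind a g = 1 := if_pos h

omit [Fintype G] in
lemma ind_neg {a g : G} (h : ¬ IsConj a g) : ind a g = 0 := if_neg h

omit [Fintype G] in
lemma ind_re (a g : G) : 0 ≤ (ind a g).re := by
  unfold ind
  split_ifs
  · simp
  · simp

omit [Fintype G] in
lemma conj_inv' (a g : G) : IsConj a g⁻¹ ↔ IsConj a⁻¹ g := by
  have key : ∀ a g : G, IsConj a g⁻¹ → IsConj a⁻¹ g := by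
    intro a g h
    obtain ⟨y, hy⟩ := isConj_iff.mp h
    refine isConj_iff.mpr ⟨y, ?_⟩
    have h1 : y * a⁻¹ * y⁻¹ = (y * a * y⁻¹)⁻¹ := by group
    rw [h1, hy, inv_inv]
  refine ⟨key a g, fun h => ?_⟩
  have h1 := key a⁻¹ g⁻¹ (by rw [inv_inv]; exact h)
  rwa [inv_inv] at h1

/-! ### The regular set -/

section reg

variable {c : G} (hc : ∀ g, c * g = g * c) (hc2 : c * c = 1) (hc1 : c ≠ 1)
variable {X : Type} [Fintype X] [MulAction G X]
include hc hc2 hc1

/-- on a regular set all odd irreducible characters occur -/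
lemma occ_reg (x0 : X) (hreg : ∀ (x : X) (g : G), g • x = x → g = 1) {χ : G → ℂ} (hχ : IsIrr χ)
    (hodd : ∀ g, χ (c * g) = - χ g) : Occ c X χ := by
  refine ⟨hχ, ?_⟩
  rw [pic_sum_odd hc hc2 hodd]
  have h1 : ∀ x : X, tk χ x x = χ 1 := by
    intro x
    unfold tk
    rw [Finset.sum_eq_single (1 : G)]
    · simp
    · intro g _ hg
      rw [if_neg]
      exact fun h => hg (hreg x g h)
    · simp
  rw [Finset.sum_congr rfl fun x _ => h1 x, Finset.sum_const, Finset.card_univ, nsmul_eq_mul]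
  refine mul_ne_zero two_ne_zero (mul_ne_zero ?_ hχ.one_ne)
  have : 0 < Fintype.card X := Fintype.card_pos_iff.mpr ⟨x0⟩
  exact_mod_cast this.ne'

/-- odd functions -/
def OddF (c : G) (χ : G → ℂ) : Prop := ∀ g, χ (c * g) = - χ g

omit hc1 in
/-- odd class functions are combinations of odd irreducible characters -/
lemma odd_exp {o : G → ℂ} (ho : IsCl o) (hodd : ∀ g, o (c * g) = - o g) :
    o = ∑ χ ∈ (IC.Irr G).filter (fun χ => OddF c χ), IC.B o χ • χ :=
  exp_odd hc hc2 (P := fun χ => OddF c χ) ho hodd fun _ _ h1 h2 => absurd h1 h2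

omit hc1 in
lemma odd_mem {V : Submodule ℂ (G → ℂ)} (hV : ∀ χ, IsIrr χ → (∀ g, χ (c * g) = - χ g) → χ ∈ V)
    {o : G → ℂ} (ho : IsCl o) (hodd : ∀ g, o (c * g) = - o g) : o ∈ V := by
  rw [odd_exp hc hc2 ho hodd]
  refine Submodule.sum_mem _ fun χ hχ => Submodule.smul_mem _ _ ?_
  rw [Finset.mem_filter] at hχ
  exact hV χ (mem_Irr.mp hχ.1) hχ.2

omit hc1 in
lemma odd_sym_mem {V : Submodule ℂ (G → ℂ)}
    (hV : ∀ χ, IsIrr χ → (∀ g, χ (c * g) = - χ g) → (fun g => χ g + χ g⁻¹) ∈ V)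
    {o : G → ℂ} (ho : IsCl o) (hodd : ∀ g, o (c * g) = - o g) (hs : ∀ g, o g⁻¹ = o g) : o ∈ V := by
  have h1 := odd_exp hc hc2 ho hodd
  have h2 : o = ∑ χ ∈ (IC.Irr G).filter (fun χ => OddF c χ),
      (IC.B o χ / 2) • (fun g => χ g + χ g⁻¹) := by
    funext g
    have h3 : o g = (o g + o g⁻¹) / 2 := by rw [hs]; ring
    rw [h3]
    conv_lhs => rw [h1]
    simp only [Finset.sum_apply, Pi.smul_apply, smul_eq_mul]
    rw [← Finset.sum_add_distrib, Finset.sum_div]
    refine Finset.sum_congr rfl fun χ _ => ?_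
    ring
  rw [h2]
  refine Submodule.sum_mem _ fun χ hχ => Submodule.smul_mem _ _ ?_
  rw [Finset.mem_filter] at hχ
  exact hV χ (mem_Irr.mp hχ.1) hχ.2

omit hc1 [Fintype G] in
lemma conj_c (a g : G) : IsConj a (c * g) ↔ IsConj (c * a) g := by
  have key : ∀ a g : G, IsConj a (c * g) → IsConj (c * a) g := by
    intro a g h
    obtain ⟨y, hy⟩ := isConj_iff.mp h
    refine isConj_iff.mpr ⟨y, ?_⟩
    have h1 : y * (c * a) * y⁻¹ = c * (y * a * y⁻¹) := by
      rw [← mul_assoc, ← hc y]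
      simp only [mul_assoc]
    rw [h1, hy, ← mul_assoc, hc2, one_mul]
  exact ⟨key a g, fun h => (key g a h.symm).symm⟩

/-- **The class criterion** for the functions `a⁰`. -/
theorem class_iff : (∀ χ : G → ℂ, IsIrr χ → (∀ g, χ (c * g) = - χ g) → χ ∈ ZC G) ↔
    ∀ g g' : G, Subgroup.zpowers g = Subgroup.zpowers g' → IsConj g' g ∨ IsConj (c * g) g := by
  constructor
  · intro h g g' hgg
    by_contra hno
    push Not at hno
    obtain ⟨h1, h2⟩ := hno
    set o : G → ℂ := fun x => ind g x - ind (c * g) x with ho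
    have hcl : IsCl o := by
      intro x y
      simp only [ho]
      rw [ind_cl, ind_cl]
    have e1 : ∀ x, ind g (c * x) = ind (c * g) x := fun x => if_congr (conj_c hc hc2 g x) rfl rfl
    have e2 : ∀ x, ind (c * g) (c * x) = ind g x := by
      intro x
      unfold ind
      rw [if_congr (conj_c hc hc2 (c * g) x) rfl rfl, ← mul_assoc, hc2, one_mul]
    have hodd : ∀ x, o (c * x) = - o x := by
      intro x
      simp only [ho]
      rw [e1, e2]
      ring
    have h3 := odd_mem hc hc2 h hcl hodd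
    have h4 : ind g g - ind (c * g) g = ind g g' - ind (c * g) g' := h3 g g' hgg
    rw [ind_pos (IsConj.refl g), ind_neg h2, ind_neg (fun h' => h1 h'.symm)] at h4
    have h5 := congrArg Complex.re h4
    simp only [Complex.sub_re, Complex.one_re, Complex.zero_re] at h5
    have h6 := ind_re (c * g) g'
    linarith
  · intro h χ hχ hodd g g' hgg
    rcases h g g' hgg with h1 | h1
    · exact (hχ.isConj h1).symm
    · have h2 : χ g = 0 := by
        have h3 := hχ.isConj h1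
        rw [hodd] at h3
        have h4 : 2 * χ g = 0 := by linear_combination -h3
        exact (mul_eq_zero.mp h4).resolve_left two_ne_zero
      have h3 : χ g' = 0 := by
        rcases h g' g hgg.symm with h4 | h4
        · rw [← hχ.isConj h4, h2]
        · have h5 := hχ.isConj h4
          rw [hodd] at h5
          have h6 : 2 * χ g' = 0 := by linear_combination -h5
          exact (mul_eq_zero.mp h6).resolve_left two_ne_zero
      rw [h2, h3]

/-- **The class criterion** for the height functions. -/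
theorem class_sym_iff :
    (∀ χ : G → ℂ, IsIrr χ → (∀ g, χ (c * g) = - χ g) → (fun g => χ g + χ g⁻¹) ∈ ZC G) ↔
    ∀ g g' : G, Subgroup.zpowers g = Subgroup.zpowers g' →
      IsConj g' g ∨ IsConj g' g⁻¹ ∨ IsConj (c * g) g ∨ IsConj (c * g) g⁻¹ := by
  constructor
  · intro h g g' hgg
    by_contra hno
    push Not at hno
    obtain ⟨h1, h2, h3, h4⟩ := hno
    set o : G → ℂ := fun x => (ind g x - ind (c * g) x) + (ind g x⁻¹ - ind (c * g) x⁻¹) with ho
    have hcl : IsCl o := by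
      intro x y
      simp only [ho]
      rw [show (y * x * y⁻¹)⁻¹ = y * x⁻¹ * y⁻¹ by group, ind_cl, ind_cl, ind_cl, ind_cl]
    have e1 : ∀ x, ind g (c * x) = ind (c * g) x := fun x => if_congr (conj_c hc hc2 g x) rfl rfl
    have e2 : ∀ x, ind (c * g) (c * x) = ind g x := by
      intro x
      unfold ind
      rw [if_congr (conj_c hc hc2 (c * g) x) rfl rfl, ← mul_assoc, hc2, one_mul]
    have hodd : ∀ x, o (c * x) = - o x := by
      intro x
      simp only [ho]
      rw [c_inv hc hc2, e1, e2, e1, e2]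
      ring
    have hs : ∀ x, o x⁻¹ = o x := by
      intro x
      simp only [ho]
      rw [inv_inv]
      ring
    have h5 : (ind g g - ind (c * g) g) + (ind g g⁻¹ - ind (c * g) g⁻¹) =
        (ind g g' - ind (c * g) g') + (ind g g'⁻¹ - ind (c * g) g'⁻¹) :=
      odd_sym_mem hc hc2 h hcl hodd hs g g' hgg
    rw [ind_pos (IsConj.refl g), ind_neg h3, ind_neg h4, ind_neg (fun h' => h1 h'.symm),
      ind_neg (fun h' => h2 ((conj_inv' g g').mp h').symm)] at h5
    have h7 := congrArg Complex.re h5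
    simp only [Complex.add_re, Complex.sub_re, Complex.one_re, Complex.zero_re] at h7
    have h8 := ind_re g g⁻¹
    have h9 := ind_re (c * g) g'
    have h10 := ind_re (c * g) g'⁻¹
    linarith
  · intro h χ hχ hodd g g' hgg
    have key : ∀ a b : G, IsConj a b → χ a + χ a⁻¹ = χ b + χ b⁻¹ := by
      intro a b hab
      rw [hχ.isConj hab, hχ.isConj ((conj_inv' a⁻¹ b).mpr (by rw [inv_inv]; exact hab))]
    have hzero : ∀ a : G, IsConj (c * a) a ∨ IsConj (c * a) a⁻¹ → χ a + χ a⁻¹ = 0 := by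
      intro a ha
      rcases ha with ha | ha
      · have h1 := key _ _ ha
        rw [c_inv hc hc2, hodd, hodd] at h1
        have h2 : 2 * (χ a + χ a⁻¹) = 0 := by linear_combination -h1
        exact (mul_eq_zero.mp h2).resolve_left two_ne_zero
      · have h1 := key _ _ ha
        rw [c_inv hc hc2, hodd, hodd, inv_inv] at h1
        have h2 : 2 * (χ a + χ a⁻¹) = 0 := by linear_combination -h1
        exact (mul_eq_zero.mp h2).resolve_left two_ne_zero
    have hsame : ∀ a b : G, IsConj b a ∨ IsConj b a⁻¹ → χ a + χ a⁻¹ = χ b + χ b⁻¹ := by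
      intro a b hab
      rcases hab with hab | hab
      · exact (key _ _ hab).symm
      · have h1 := key _ _ hab
        rw [inv_inv] at h1
        rw [h1]
        ring
    change χ g + χ g⁻¹ = χ g' + χ g'⁻¹
    rcases h g g' hgg with h1 | h1 | h1 | h1
    · exact hsame _ _ (Or.inl h1)
    · exact hsame _ _ (Or.inr h1)
    · have h2 := hzero g (Or.inl h1)
      rcases h g' g hgg.symm with h3 | h3 | h3 | h3
      · exact (hsame _ _ (Or.inl h3)).symm
      · exact (hsame _ _ (Or.inr h3)).symm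
      · rw [h2, hzero g' (Or.inl h3)]
      · rw [h2, hzero g' (Or.inr h3)]
    · have h2 := hzero g (Or.inr h1)
      rcases h g' g hgg.symm with h3 | h3 | h3 | h3
      · exact (hsame _ _ (Or.inl h3)).symm
      · exact (hsame _ _ (Or.inr h3)).symm
      · rw [h2, hzero g' (Or.inl h3)]
      · rw [h2, hzero g' (Or.inr h3)]

end reg

end Pool.Agent.J4.H53.Cx
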