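import Pool.Agent.H515.SP.Char
import Pool.Agent.Q11.CZ.Grp

/-!
# The kernels of class functions on a finite set with a group action
-/

set_option autoImplicit false
set_option linter.unusedSectionVars false

open scoped Classical BigOperators

namespace Pool.Agent.J4.H53.Cx

open Pool.Agent.Helper884 Pool.Agent.H254R3.IN

variable {G : Type} [Group G] [Fintype G]

/-- class functions act on irreducible characters by scalars -/
lemma scal {χ : G → ℂ} (hχ : IsIrr χ) {θ : G → ℂ} (hθ : IsCl θ) (k : G) :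
    ∑ a : G, θ a * χ (a * k) = ((∑ a : G, θ a * χ a) / χ 1) * χ k := by
  obtain ⟨V, _, _, _, ρ, hr, rfl⟩ := hχ
  have h1 := class_scalar ρ hr θ hθ
  have h2 := congrArg (fun S : V →ₗ[ℂ] V => LinearMap.trace ℂ V (S * ρ k)) h1
  simp only [Finset.sum_mul, map_sum, smul_mul_assoc, map_smul, ← map_mul, smul_eq_mul] at h2
  have h3 : (LinearMap.id : V →ₗ[ℂ] V) * ρ k = ρ k := rfl
  rw [h3] at h2
  exact h2

/-- a central element of order two acts by a sign -/
lemma sign {χ : G → ℂ} (hχ : IsIrr χ) {c : G} (hc : ∀ g, c * g = g * c) (hc2 : c * c = 1) :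
    (∀ g, χ (c * g) = χ g) ∨ ∀ g, χ (c * g) = -χ g := by
  have hcl : IsCl (fun g : G => if g = c then (1 : ℂ) else 0) := by
    intro g y
    have h1 : y * g * y⁻¹ = c ↔ g = c := by
      constructor
      · intro h
        have h2 : g = y⁻¹ * c * y := by rw [← h]; group
        rw [h2, mul_assoc, hc, ← mul_assoc, inv_mul_cancel, one_mul]
      · rintro rfl
        rw [← hc, mul_assoc, mul_inv_cancel, mul_one]
    simp only [h1]
  have h1 : ∀ k, χ (c * k) = ((∑ a : G, (if a = c then (1 : ℂ) else 0) * χ a) / χ 1) * χ k := by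
    intro k
    rw [← scal hχ hcl k]
    simp
  set e := (∑ a : G, (if a = c then (1 : ℂ) else 0) * χ a) / χ 1 with he
  have h2 : e * e = 1 := by
    have h3 := h1 c
    rw [hc2] at h3
    have h4 := h1 1
    rw [mul_one] at h4
    rw [h4, ← mul_assoc] at h3
    exact mul_right_cancel₀ hχ.one_ne (by rw [one_mul]; exact h3.symm)
  rcases mul_self_eq_one_iff.mp h2 with h | h
  · left; intro g; rw [h1, h, one_mul]
  · right; intro g; rw [h1, h, neg_one_mul]

section kernel

variable {X : Type} [Fintype X] [MulAction G X]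

/-- the kernel of the operator given by `f` -/
noncomputable def tk (f : G → ℂ) (x y : X) : ℂ := ∑ g : G, if g • x = y then f g else 0

lemma tk_add (f h : G → ℂ) (x y : X) : tk (fun g => f g + h g) x y = tk f x y + tk h x y := by
  unfold tk
  rw [← Finset.sum_add_distrib]
  exact Finset.sum_congr rfl fun g _ => by split_ifs <;> simp

lemma tk_neg (f : G → ℂ) (x y : X) : tk (fun g => - f g) x y = - tk f x y := by
  unfold tk
  rw [← Finset.sum_neg_distrib]
  exact Finset.sum_congr rfl fun g _ => by split_ifs <;> simp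

lemma tk_smul_right {c : G} (f : G → ℂ) (hf : ∀ g, f (c * g) = - f g) (hc2 : c * c = 1) (x y : X) :
    tk f x (c • y) = - tk f x y := by
  rw [← tk_neg]
  unfold tk
  refine Fintype.sum_equiv (Equiv.mulLeft c) _ _ fun g => ?_
  change (if g • x = c • y then f g else 0) = if (c * g) • x = y then - f (c * g) else 0
  have h1 : g • x = c • y ↔ (c * g) • x = y := by
    rw [mul_smul]
    constructor
    · intro h; rw [h, ← mul_smul, hc2, one_smul]
    · intro h; rw [← h, ← mul_smul, hc2, one_smul]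
  by_cases h : g • x = c • y
  · rw [if_pos h, if_pos (h1.mp h), hf, neg_neg]
  · rw [if_neg h, if_neg (fun h' => h (h1.mpr h'))]

lemma tk_inv (f : G → ℂ) (x y : X) : tk (fun g => f g⁻¹) x y = tk f y x := by
  unfold tk
  refine Fintype.sum_equiv (Equiv.inv G) _ _ fun g => ?_
  simp only [Equiv.inv_apply]
  have h1 : g • x = y ↔ g⁻¹ • y = x := by
    rw [inv_smul_eq_iff]
    exact eq_comm
  simp only [h1]

lemma tk_conj {f : G → ℂ} (hf : IsCl f) (h : G) (x y : X) : tk f (h • x) (h • y) = tk f x y := by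
  unfold tk
  refine Fintype.sum_equiv (MulAut.conj h⁻¹).toEquiv _ _ fun g => ?_
  have e1 : (MulAut.conj h⁻¹).toEquiv g = h⁻¹ * g * h := by simp
  rw [e1]
  have h1 : g • h • x = h • y ↔ (h⁻¹ * g * h) • x = y := by
    rw [mul_smul, mul_smul, inv_smul_eq_iff]
  have h2 : f (h⁻¹ * g * h) = f g := by simpa using hf g h⁻¹
  simp only [h1, h2]

/-- the class function acts on the kernel of the inverse of an irreducible character by a scalar -/
lemma scal_tk {χ : G → ℂ} (hχ : IsIrr χ) {θ : G → ℂ} (hθ : IsCl θ) (x z : X) :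
    ((∑ a : G, θ a * χ a) / χ 1) * tk (fun g => χ g⁻¹) x z =
      ∑ b : G, χ b⁻¹ * tk θ (b • x) z := by
  have h1 : ∀ k : G, ∑ a : G, θ a * χ ((a⁻¹ * k)⁻¹) =
      ((∑ a : G, θ a * χ a) / χ 1) * χ k⁻¹ := by
    intro k
    rw [← scal hχ hθ k⁻¹]
    refine Finset.sum_congr rfl fun a _ => ?_
    have h2 : χ ((a⁻¹ * k)⁻¹) = χ (a * k⁻¹) := by
      have h3 := hχ.conj (a * k⁻¹) a⁻¹
      rw [← h3]
      congr 1
      group
    rw [h2]
  unfold tk
  rw [Finset.mul_sum]
  have h4 : ∀ k : G, ((∑ a : G, θ a * χ a) / χ 1) * (if k • x = z then χ k⁻¹ else 0) =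
      ∑ a : G, if k • x = z then θ a * χ ((a⁻¹ * k)⁻¹) else 0 := by
    intro k
    split_ifs with h
    · rw [h1]
    · simp
  rw [Finset.sum_congr rfl fun k _ => h4 k, Finset.sum_comm]
  have h5 : ∀ a : G, (∑ k : G, if k • x = z then θ a * χ ((a⁻¹ * k)⁻¹) else 0) =
      ∑ b : G, if a • (b • x) = z then θ a * χ b⁻¹ else 0 := by
    intro a
    refine Fintype.sum_equiv (Equiv.mulLeft a⁻¹) _ _ fun k => ?_
    change (if k • x = z then θ a * χ ((a⁻¹ * k)⁻¹) else 0) =
      if a • ((a⁻¹ * k) • x) = z then θ a * χ (a⁻¹ * k)⁻¹ else 0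
    have e1 : a • ((a⁻¹ * k) • x) = k • x := by rw [← mul_smul, mul_inv_cancel_left]
    simp only [e1]
  rw [Finset.sum_congr rfl fun a _ => h5 a, Finset.sum_comm]
  refine Finset.sum_congr rfl fun b _ => ?_
  rw [Finset.mul_sum]
  refine Finset.sum_congr rfl fun a _ => ?_
  split_ifs
  · ring
  · simp

/-- `θ` acts by zero on the set -/
lemma pair_zero {χ : G → ℂ} (hχ : IsIrr χ) {θ : G → ℂ} (hθ : IsCl θ)
    (h0 : ∀ x y : X, tk θ x y = 0) (hne : ∃ x y : X, tk χ x y ≠ 0) : ∑ a : G, θ a * χ a = 0 := by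
  obtain ⟨x, y, hxy⟩ := hne
  have h1 := scal_tk hχ hθ y x
  rw [tk_inv] at h1
  simp only [h0, mul_zero, Finset.sum_const_zero] at h1
  rcases mul_eq_zero.mp h1 with h2 | h2
  · rcases div_eq_zero_iff.mp h2 with h3 | h3
    · exact h3
    · exact absurd h3 hχ.one_ne
  · exact absurd h2 hxy

lemma cl_inv {χ : G → ℂ} (hχ : IsCl χ) : IsCl (fun g => χ g⁻¹) := by
  intro g y
  have e : (y * g * y⁻¹)⁻¹ = y * g⁻¹ * y⁻¹ := by group
  change χ (y * g * y⁻¹)⁻¹ = χ g⁻¹
  rw [e, hχ]

lemma norm_ne {χ : G → ℂ} (hχ : IsIrr χ) : ∑ a : G, χ a⁻¹ * χ a ≠ 0 := by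
  have h1 := irr_orth hχ hχ
  rw [if_pos rfl] at h1
  intro h2
  have h3 : ∑ g : G, χ g * χ g⁻¹ = 0 := by
    rw [← h2]; exact Finset.sum_congr rfl fun g _ => mul_comm _ _
  rw [h3, mul_zero] at h1
  exact zero_ne_one h1

/-- an irreducible character with trace zero acts by zero -/
lemma tk_zero_of_trace {χ : G → ℂ} (hχ : IsIrr χ) (h0 : ∑ x : X, tk χ x x = 0) (x y : X) :
    tk χ x y = 0 := by
  have hcl : IsCl (fun g : G => χ g⁻¹) := cl_inv hχ.conj
  set u : X → X → ℂ := fun x y => tk (fun g => χ g⁻¹) x y with hu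
  have hstar : ∀ x y : X, u y x = (starRingEnd ℂ) (u x y) := by
    intro x y
    simp only [hu]
    rw [tk_inv]
    unfold tk
    rw [map_sum]
    refine Finset.sum_congr rfl fun g _ => ?_
    split_ifs
    · rw [← Pool.Agent.H515.SP.star_inv hχ, inv_inv]
    · simp
  have h1 : ∀ z : X, ∑ b : G, χ b⁻¹ * u (b • z) z = ∑ w : X, u z w * u w z := by
    intro z
    have h2 : ∀ w : X, u z w * u w z = ∑ b : G, if b • z = w then χ b⁻¹ * u w z else 0 := by
      intro w
      simp only [hu]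
      conv_lhs => rw [tk, Finset.sum_mul]
      refine Finset.sum_congr rfl fun b _ => ?_
      split_ifs <;> simp
    rw [Finset.sum_congr rfl fun w _ => h2 w, Finset.sum_comm]
    refine Finset.sum_congr rfl fun b _ => ?_
    rw [Finset.sum_ite_eq Finset.univ (b • z)]
    simp
  have h3 : ∑ z : X, ∑ w : X, u z w * u w z = 0 := by
    have h4 : ∀ z : X, ∑ w : X, u z w * u w z =
        ((∑ a : G, χ a⁻¹ * χ a) / χ 1) * u z z := by
      intro z
      rw [← h1 z]
      exact (scal_tk hχ hcl z z).symm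
    rw [Finset.sum_congr rfl fun z _ => h4 z, ← Finset.mul_sum]
    have h5 : ∑ z : X, u z z = ∑ z : X, tk χ z z :=
      Finset.sum_congr rfl fun z _ => tk_inv χ z z
    rw [h5, h0, mul_zero]
  have h6 : ∑ z : X, ∑ w : X, (Complex.normSq (u z w) : ℝ) = 0 := by
    have h7 : ((∑ z : X, ∑ w : X, (Complex.normSq (u z w) : ℝ) : ℝ) : ℂ) = 0 := by
      rw [← h3]
      push_cast
      refine Finset.sum_congr rfl fun z _ => Finset.sum_congr rfl fun w _ => ?_
      rw [hstar z w, Complex.mul_conj]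
    exact_mod_cast h7
  have h8 : ∑ w : X, (Complex.normSq (u y w) : ℝ) = 0 :=
    (Finset.sum_eq_zero_iff_of_nonneg (fun z _ => Finset.sum_nonneg fun w _ =>
      Complex.normSq_nonneg _)).mp h6 y (Finset.mem_univ _)
  have h9 : Complex.normSq (u y x) = 0 :=
    (Finset.sum_eq_zero_iff_of_nonneg (fun w _ => Complex.normSq_nonneg _)).mp h8 x
      (Finset.mem_univ _)
  have h10 : u y x = 0 := Complex.normSq_eq_zero.mp h9
  rw [← h10]
  exact (tk_inv χ y x).symm

end kernel

end Pool.Agent.J4.H53.Cx
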