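import Pool.Agent.J4.H53.Cx.Span2
import Pool.Agent.R721.CD.Char
import Pool.Agent.Q11.CZ.Ab

/-!
# Functions constant on the generators of cyclic groups, the twist condition and linear characters
-/

set_option autoImplicit false
set_option linter.unusedSectionVars false

open scoped Classical BigOperators commutatorElement

namespace Pool.Agent.J4.H53.Cx

open Pool.Agent.Helper884 Pool.Agent.H254R3.IN

variable {G : Type} [Group G] [Fintype G]

/-- the functions constant on the generators of cyclic groups -/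
def ZC (G : Type) [Group G] : Submodule ℂ (G → ℂ) where
  carrier := {f | ∀ g g' : G, Subgroup.zpowers g = Subgroup.zpowers g' → f g = f g'}
  add_mem' := by
    intro f h hf hh g g' hg
    rw [Pi.add_apply, Pi.add_apply, hf g g' hg, hh g g' hg]
  zero_mem' := fun _ _ _ => rfl
  smul_mem' := by
    intro r f hf g g' hg
    rw [Pi.smul_apply, Pi.smul_apply, hf g g' hg]

/-- the twist condition -/
def TwC (G : Type) [Group G] : Submodule ℂ (G → ℂ) where
  carrier := {f | ∀ j : ℕ, j.Coprime (Nat.card G) → ∀ g : G, ∀ z ∈ commutator G,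
    f ((g * z) ^ j) - f (g * z) = f (g ^ j) - f g}
  add_mem' := by
    intro f h hf hh j hj g z hz
    have h1 := hf j hj g z hz
    have h2 := hh j hj g z hz
    simp only [Pi.add_apply]
    linear_combination h1 + h2
  zero_mem' := fun _ _ _ _ _ => rfl
  smul_mem' := by
    intro r f hf j hj g z hz
    have h1 := hf j hj g z hz
    simp only [Pi.smul_apply, smul_eq_mul]
    linear_combination r * h1

lemma mem_ZC {f : G → ℂ} : f ∈ ZC G ↔
    ∀ g g' : G, Subgroup.zpowers g = Subgroup.zpowers g' → f g = f g' := Iff.rfl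

lemma mem_TwC {f : G → ℂ} : f ∈ TwC G ↔ ∀ j : ℕ, j.Coprime (Nat.card G) → ∀ g : G,
    ∀ z ∈ commutator G, f ((g * z) ^ j) - f (g * z) = f (g ^ j) - f g := Iff.rfl

lemma ZC_one : (fun _ => 1 : G → ℂ) ∈ ZC G := fun _ _ _ => rfl

lemma TwC_one : (fun _ => 1 : G → ℂ) ∈ TwC G := fun _ _ _ _ _ => rfl

lemma ZC_le_TwC : ZC G ≤ TwC G := by
  intro f hf j hj g z _
  rw [hf _ _ (Pool.Agent.Q11.CZ.zpowers_pow hj g), hf _ _ (Pool.Agent.Q11.CZ.zpowers_pow hj (g * z)),
    sub_self, sub_self]

lemma pow_inj {j : ℕ} (hj : j.Coprime (Nat.card G)) : Function.Injective (fun g : G => g ^ j) := by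
  intro a b h
  exact (powCoprime (G := G) hj.symm).injective h

/-- a function in `TwC` with sum zero over the cosets of the commutator subgroup is in `ZC` -/
lemma ZC_of_TwC {f : G → ℂ} (hf : f ∈ TwC G)
    (h0 : ∀ g : G, (∑ z : G, if z ∈ commutator G then f (g * z) else 0) = 0) : f ∈ ZC G := by
  have hcard : Nat.card G ≠ 0 := Nat.card_pos.ne'
  have key : ∀ j : ℕ, j.Coprime (Nat.card G) → ∀ g : G, f (g ^ j) = f g := by
    intro j hj g
    have h1 : (∑ z : G, if z ∈ commutator G then f ((g * z) ^ j) else 0) =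
        ∑ z : G, if z ∈ commutator G then f (g ^ j * z) else 0 := by
      have hbij : Function.Bijective (fun z : G => (g ^ j)⁻¹ * (g * z) ^ j) := by
        rw [Fintype.bijective_iff_injective_and_card]
        refine ⟨fun a b h => ?_, rfl⟩
        have h2 : (g * a) ^ j = (g * b) ^ j := mul_left_cancel h
        exact mul_left_cancel (pow_inj hj h2)
      refine Fintype.sum_equiv (Equiv.ofBijective _ hbij) _ _ fun z => ?_
      change (if z ∈ commutator G then f ((g * z) ^ j) else 0) =
        if (g ^ j)⁻¹ * (g * z) ^ j ∈ commutator G then f (g ^ j * ((g ^ j)⁻¹ * (g * z) ^ j)) else 0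
      rw [mul_inv_cancel_left]
      have h3 : (g ^ j)⁻¹ * (g * z) ^ j ∈ commutator G ↔ z ∈ commutator G := by
        constructor
        · intro h
          have h4 : (QuotientGroup.mk' (commutator G)) ((g ^ j)⁻¹ * (g * z) ^ j) = 1 :=
            (QuotientGroup.eq_one_iff _).mpr h
          have hcomm : ∀ a b : G ⧸ commutator G, a * b = b * a := by
            intro a b
            obtain ⟨a, rfl⟩ := QuotientGroup.mk_surjective a
            obtain ⟨b, rfl⟩ := QuotientGroup.mk_surjective b
            change ((a * b : G) : G ⧸ commutator G) = ((b * a : G) : G ⧸ commutator G)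
            rw [QuotientGroup.eq]
            have h5 : (a * b)⁻¹ * (b * a) = ⁅b⁻¹, a⁻¹⁆ := by
              rw [commutatorElement_def]; group
            rw [h5]
            exact Subgroup.commutator_mem_commutator (Subgroup.mem_top _) (Subgroup.mem_top _)
          rw [map_mul, map_inv, map_pow, map_pow, map_mul,
            (show Commute ((QuotientGroup.mk' (commutator G)) g)
              ((QuotientGroup.mk' (commutator G)) z) from hcomm _ _).mul_pow,
            inv_mul_cancel_left] at h4
          have h6 : z ^ j ∈ commutator G := by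
            rw [← map_pow] at h4
            exact (QuotientGroup.eq_one_iff _).mp h4
          have h7 : z ∈ Subgroup.zpowers (z ^ j) := by
            rw [Pool.Agent.Q11.CZ.zpowers_pow hj]
            exact Subgroup.mem_zpowers z
          exact (Subgroup.zpowers_le.mpr h6) h7
        · intro h
          obtain ⟨z', hz', h4⟩ := Pool.Agent.Q11.CZ.pow_mul_mem g z h j
          rw [h4, inv_mul_cancel_left]
          exact hz'
      simp only [h3]
    have h2 : (∑ z : G, if z ∈ commutator G then f ((g * z) ^ j) - f (g * z) else 0) =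
        ∑ z : G, if z ∈ commutator G then f (g ^ j) - f g else 0 :=
      Finset.sum_congr rfl fun z _ => by
        split_ifs with h
        · exact hf j hj g z h
        · rfl
    have h3 : (∑ z : G, if z ∈ commutator G then f ((g * z) ^ j) - f (g * z) else 0) =
        (∑ z : G, if z ∈ commutator G then f ((g * z) ^ j) else 0) -
        ∑ z : G, if z ∈ commutator G then f (g * z) else 0 := by
      rw [← Finset.sum_sub_distrib]
      exact Finset.sum_congr rfl fun z _ => by split_ifs <;> simp
    rw [h3, h1, h0, h0, sub_zero, ← Finset.sum_filter, Finset.sum_const, nsmul_eq_mul] at h2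
    have h4 : ((Finset.univ.filter fun z : G => z ∈ commutator G).card : ℂ) ≠ 0 := by
      have : 0 < (Finset.univ.filter fun z : G => z ∈ commutator G).card :=
        Finset.card_pos.mpr ⟨1, by simp [one_mem]⟩
      exact_mod_cast this.ne'
    have h5 := (mul_eq_zero.mp h2.symm).resolve_left h4
    exact sub_eq_zero.mp h5
  intro g g' h
  obtain ⟨u, hu⟩ := Pool.Agent.Q11.CZ.exists_unit h
  rw [hu, key _ (ZMod.val_coe_unit_coprime u) g]

/-- an irreducible character of degree one is multiplicative -/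
lemma lin_mul {χ : G → ℂ} (hχ : IsIrr χ) (h1 : χ 1 = 1) (g h : G) : χ (g * h) = χ g * χ h := by
  obtain ⟨V, _, _, _, rho, hr, rfl⟩ := hχ
  have hfr : Module.finrank ℂ V = 1 := by
    rw [rho.char_one] at h1
    exact_mod_cast h1
  have hsc : ∀ T : V →ₗ[ℂ] V, ∃ z : ℂ, T = z • LinearMap.id := by
    intro T
    obtain ⟨v, hv, hv'⟩ := finrank_eq_one_iff'.mp hfr
    obtain ⟨z, hz⟩ := hv' (T v)
    refine ⟨z, ?_⟩
    ext w
    obtain ⟨d, rfl⟩ := hv' w
    rw [map_smul, ← hz, LinearMap.smul_apply, LinearMap.id_apply, smul_comm]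
  have hval : ∀ (z : ℂ), LinearMap.trace ℂ V (z • (LinearMap.id : V →ₗ[ℂ] V)) = z := by
    intro z
    rw [map_smul, LinearMap.trace_id, hfr]
    simp
  obtain ⟨a, ha⟩ := hsc (rho g)
  obtain ⟨b, hb⟩ := hsc (rho h)
  have e1 : rho.character g = a := by
    unfold Representation.character
    rw [ha, hval]
  have e2 : rho.character h = b := by
    unfold Representation.character
    rw [hb, hval]
  have e3 : rho.character (g * h) = a * b := by
    have e4 : rho (g * h) = (a * b) • (LinearMap.id : V →ₗ[ℂ] V) := by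
      rw [map_mul, ha, hb]
      ext v
      simp [smul_smul, mul_comm]
    unfold Representation.character
    rw [e4, hval]
  rw [e1, e2, e3]

lemma mul_TwC {χ : G → ℂ} (h1 : χ 1 = 1) (hm : ∀ g h, χ (g * h) = χ g * χ h) : χ ∈ TwC G := by
  let φ : G →* ℂ := { toFun := χ, map_one' := h1, map_mul' := hm }
  have hz1 : ∀ z ∈ commutator G, χ z = 1 := by
    intro z hz
    have h2 : commutator G ≤ (φ.toHomUnits).ker := Abelianization.commutator_subset_ker _
    have h3 := h2 hz
    rw [MonoidHom.mem_ker] at h3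
    have h4 : ((φ.toHomUnits z : ℂˣ) : ℂ) = φ z := MonoidHom.coe_toHomUnits φ z
    rw [h3, Units.val_one] at h4
    exact h4.symm
  have hpow : ∀ (g : G) (j : ℕ), χ (g ^ j) = χ g ^ j := fun g j => map_pow φ g j
  intro j hj g z hz
  rw [hpow, hpow, hm, hz1 z hz, mul_one]

/-- an irreducible character which is not linear has sum zero over the cosets of the commutator
subgroup -/
lemma sum_coset {χ : G → ℂ} (hχ : IsIrr χ) (h1 : χ 1 ≠ 1) (g : G) :
    (∑ z : G, if z ∈ commutator G then χ (g * z) else 0) = 0 := by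
  have hab : ∀ a b : G, a * b * a⁻¹ * b⁻¹ ∈ commutator G := fun a b =>
    Subgroup.commutator_mem_commutator (Subgroup.mem_top _) (Subgroup.mem_top _)
  rcases Pool.Agent.R721.CD.dichotomy (commutator G) inferInstance hab hχ with h | h
  · have hcl : IsCl (fun g : G => if g ∈ commutator G then (1 : ℂ) else 0) := by
      intro g y
      have : y * g * y⁻¹ ∈ commutator G ↔ g ∈ commutator G := by
        constructor
        · intro h
          have h2 := (inferInstance : (commutator G).Normal).conj_mem _ h y⁻¹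
          simpa [mul_assoc] using h2
        · intro h
          exact (inferInstance : (commutator G).Normal).conj_mem _ h y
      simp only [this]
    have h2 := scal hχ hcl g
    simp only [ite_mul, one_mul, zero_mul] at h2
    rw [h, zero_div, zero_mul] at h2
    refine Eq.trans (Finset.sum_congr rfl fun z _ => ?_) h2
    have h3 : χ (g * z) = χ (z * g) := by
      have h4 := hχ.conj (z * g) g
      rw [← h4]
      congr 1
      group
    rw [h3]
  · exact absurd h.1 h1

lemma irr_ZC_iff {χ : G → ℂ} (hχ : IsIrr χ) (h1 : χ 1 ≠ 1) : χ ∈ TwC G ↔ χ ∈ ZC G :=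
  ⟨fun h => ZC_of_TwC h (sum_coset hχ h1), fun h => ZC_le_TwC h⟩

lemma sum_coset_inv {χ : G → ℂ} (hχ : IsIrr χ) (h1 : χ 1 ≠ 1) (g : G) :
    (∑ z : G, if z ∈ commutator G then χ (g * z)⁻¹ else 0) = 0 := by
  refine Eq.trans ?_ (sum_coset hχ h1 g⁻¹)
  refine Fintype.sum_equiv ((Equiv.inv G).trans (Equiv.mulLeft g |>.trans (Equiv.mulRight g⁻¹)))
    _ _ fun z => ?_
  change (if z ∈ commutator G then χ (g * z)⁻¹ else 0) =
    if g * z⁻¹ * g⁻¹ ∈ commutator G then χ (g⁻¹ * (g * z⁻¹ * g⁻¹)) else 0
  have h3 : g * z⁻¹ * g⁻¹ ∈ commutator G ↔ z ∈ commutator G := by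
    constructor
    · intro h
      have h4 := (inferInstance : (commutator G).Normal).conj_mem _ h g⁻¹
      have h5 : g⁻¹ * (g * z⁻¹ * g⁻¹) * g⁻¹⁻¹ = z⁻¹ := by group
      rw [h5] at h4
      exact inv_mem_iff.mp h4
    · intro h
      exact (inferInstance : (commutator G).Normal).conj_mem _ (inv_mem h) g
  have h4 : g⁻¹ * (g * z⁻¹ * g⁻¹) = (g * z)⁻¹ := by group
  simp only [h3, h4]

lemma sym_ZC_iff {χ : G → ℂ} (hχ : IsIrr χ) (h1 : χ 1 ≠ 1) :
    (fun g => χ g + χ g⁻¹) ∈ TwC G ↔ (fun g => χ g + χ g⁻¹) ∈ ZC G := by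
  refine ⟨fun h => ZC_of_TwC h fun g => ?_, fun h => ZC_le_TwC h⟩
  have h2 : (∑ z : G, if z ∈ commutator G then χ (g * z) + χ (g * z)⁻¹ else 0) =
      (∑ z : G, if z ∈ commutator G then χ (g * z) else 0) +
      ∑ z : G, if z ∈ commutator G then χ (g * z)⁻¹ else 0 := by
    rw [← Finset.sum_add_distrib]
    exact Finset.sum_congr rfl fun z _ => by split_ifs <;> simp
  rw [h2, sum_coset hχ h1, sum_coset_inv hχ h1, add_zero]

lemma lin_TwC {χ : G → ℂ} (hχ : IsIrr χ) (h1 : χ 1 = 1) : χ ∈ TwC G :=
  mul_TwC h1 (lin_mul hχ h1)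

lemma lin_sym_TwC {χ : G → ℂ} (hχ : IsIrr χ) (h1 : χ 1 = 1) :
    (fun g => χ g + χ g⁻¹) ∈ TwC G := by
  have hm := lin_mul hχ h1
  have h2 : (fun g => χ g⁻¹) ∈ TwC G := by
    apply mul_TwC
    · simpa using h1
    · intro g h
      rw [mul_inv_rev, hm, mul_comm]
  exact Submodule.add_mem _ (lin_TwC hχ h1) h2

end Pool.Agent.J4.H53.Cx
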