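import Pool.Agent.J4.H53.Cx.Lin

/-!
# Characters constant on the generators of cyclic groups have rational values
-/

set_option autoImplicit false
set_option linter.unusedSectionVars false

open scoped Classical BigOperators

namespace Pool.Agent.J4.H53.Cx

open Pool.Agent.Helper884 Pool.Agent.H254R3.IN Polynomial
open Pool.Agent.R721.CD (IsRepChar)

variable {G : Type} [Group G] [Fintype G]

/-- the values at the powers of an element are given by a rational polynomial -/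
def PF (ζ : ℂ) (f : G → ℂ) : Prop :=
  ∀ g : G, ∃ F : ℚ[X], ∀ k : ℕ, f (g ^ k) = aeval (ζ ^ k) F

lemma PF_irr {χ : G → ℂ} (hχ : IsIrr χ) {ζ : ℂ} (hζ : IsPrimitiveRoot ζ (Nat.card G)) :
    PF ζ χ := by
  intro g
  set H := Subgroup.zpowers g with hH
  set f : H → ℂ := fun h => χ h with hfdef
  have hf : IsRepChar f := (IsRepChar.of_irr hχ).comp H.subtype
  have hexp : ∀ h, f h = ∑ ψ ∈ IC.Irr H, IC.B f ψ * ψ h := fun h =>
    Pool.Agent.R721.CD.expand_at f hf.isClass h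
  have hn : ∀ ψ ∈ IC.Irr H, ∃ n : ℕ, IC.B f ψ = n := fun ψ hψ =>
    Pool.Agent.R721.CD.mult_nat_rep hf (IsRepChar.of_irr (IC.mem_Irr.mp hψ))
  have hcomm : ∀ a b : H, a * b * a⁻¹ * b⁻¹ = 1 := by
    rintro ⟨a, ha⟩ ⟨b, hb⟩
    obtain ⟨m, rfl⟩ := Subgroup.mem_zpowers_iff.mp ha
    obtain ⟨n, rfl⟩ := Subgroup.mem_zpowers_iff.mp hb
    apply Subtype.ext
    change g ^ m * g ^ n * (g ^ m)⁻¹ * (g ^ n)⁻¹ = 1
    group
  have hj : ∀ ψ ∈ IC.Irr H, ∃ j : ℕ, ∀ k : ℕ,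
      ψ ((⟨g, Subgroup.mem_zpowers g⟩ : H) ^ k) = (ζ ^ k) ^ j := by
    intro ψ hψ
    have h1 : IsIrr ψ := IC.mem_Irr.mp hψ
    have h2 : ψ 1 = 1 ∧ ∀ a b, ψ (a * b) = ψ a * ψ b := by
      rcases Pool.Agent.R721.CD.dichotomy (⊥ : Subgroup H) inferInstance
        (fun a b => by rw [hcomm]; exact one_mem _) h1 with h | h
      · exfalso
        apply h1.one_ne
        rw [← h]
        simp [Subgroup.mem_bot]
      · exact ⟨h.1, h.2.2⟩
    let φ : H →* ℂ := { toFun := ψ, map_one' := h2.1, map_mul' := h2.2 }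
    have hpow : ∀ (a : H) (k : ℕ), ψ (a ^ k) = ψ a ^ k := fun a k => map_pow φ a k
    have h3 : (ψ ⟨g, Subgroup.mem_zpowers g⟩) ^ Nat.card G = 1 := by
      rw [← hpow]
      have h4 : (⟨g, Subgroup.mem_zpowers g⟩ : H) ^ Nat.card G = 1 := by
        apply Subtype.ext
        change g ^ Nat.card G = 1
        exact pow_card_eq_one'
      rw [h4, h2.1]
    have : NeZero (Nat.card G) := ⟨Nat.card_pos.ne'⟩
    obtain ⟨j, -, hj⟩ := hζ.eq_pow_of_pow_eq_one h3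
    refine ⟨j, fun k => ?_⟩
    rw [hpow, ← hj, ← pow_mul, ← pow_mul, mul_comm]
  choose! n hn using hn
  choose! j hj using hj
  refine ⟨∑ ψ ∈ IC.Irr H, C (n ψ : ℚ) * X ^ (j ψ), fun k => ?_⟩
  have h1 := hexp ((⟨g, Subgroup.mem_zpowers g⟩ : H) ^ k)
  have h2 : f ((⟨g, Subgroup.mem_zpowers g⟩ : H) ^ k) = χ (g ^ k) := rfl
  rw [← h2, h1, map_sum]
  refine Finset.sum_congr rfl fun ψ hψ => ?_
  rw [hn ψ hψ, hj ψ hψ, map_mul, aeval_C, map_pow, aeval_X]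
  congr 1

lemma PF_inv {f : G → ℂ} {ζ : ℂ} (hf : PF ζ f) : PF ζ (fun g => f g⁻¹) := by
  intro g
  obtain ⟨F, hF⟩ := hf g⁻¹
  obtain ⟨F, hF'⟩ := hf g
  refine ⟨F.comp (X ^ (Nat.card G - 1)), fun k => ?_⟩
  have h1 : (g ^ k)⁻¹ = g ^ (k * (Nat.card G - 1)) := by
    rw [pow_mul]
    apply inv_eq_of_mul_eq_one_right
    rw [← pow_succ', Nat.sub_add_cancel (Nat.card_pos), pow_card_eq_one']
  change f (g ^ k)⁻¹ = _
  rw [h1, hF', aeval_comp, map_pow, aeval_X, pow_mul]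

lemma PF_add {f h : G → ℂ} {ζ : ℂ} (hf : PF ζ f) (hh : PF ζ h) : PF ζ (fun g => f g + h g) := by
  intro g
  obtain ⟨F, hF⟩ := hf g
  obtain ⟨H, hH⟩ := hh g
  refine ⟨F + H, fun k => ?_⟩
  change f (g ^ k) + h (g ^ k) = _
  rw [hF, hH, map_add]

lemma rat_of_ZC {f : G → ℂ} (hpf : ∀ ζ : ℂ, IsPrimitiveRoot ζ (Nat.card G) → PF ζ f)
    (hf : f ∈ ZC G) (g : G) : ∃ q : ℚ, f g = q := by
  have : NeZero (Nat.card G) := ⟨Nat.card_pos.ne'⟩
  have : NeZero ((Nat.card G : ℕ) : ℚ) := ⟨by exact_mod_cast (Nat.card_pos (α := G)).ne'⟩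
  let L := CyclotomicField (Nat.card G) ℚ
  have : IsCyclotomicExtension {Nat.card G} ℚ L :=
    CyclotomicField.isCyclotomicExtension (Nat.card G) ℚ
  have hζL := IsCyclotomicExtension.zeta_spec (Nat.card G) ℚ L
  set ζL := IsCyclotomicExtension.zeta (Nat.card G) ℚ L with hζLdef
  let φ : L →ₐ[ℚ] ℂ := IsAlgClosed.lift
  have hζ : IsPrimitiveRoot (φ ζL) (Nat.card G) := hζL.map_of_injective φ.injective
  obtain ⟨F, hF⟩ := hpf _ hζ g
  set x : L := aeval ζL F with hx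
  have hxg : φ x = f g := by
    have h1 := hF 1
    rw [pow_one, pow_one] at h1
    rw [h1, hx, ← aeval_algHom_apply]
  have : IsGalois ℚ L := IsCyclotomicExtension.isGalois {Nat.card G} ℚ L
  have hfix : ∀ σ : L ≃ₐ[ℚ] L, σ x = x := by
    intro σ
    refine φ.injective ?_
    change φ (σ x) = φ x
    have h1 : IsPrimitiveRoot (σ ζL) (Nat.card G) := hζL.map_of_injective σ.injective
    obtain ⟨k, -, hco, hk⟩ := hζL.isPrimitiveRoot_iff.mp h1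
    have h2 : σ x = aeval (ζL ^ k) F := by
      rw [hk, hx]
      exact (aeval_algHom_apply (σ : L →ₐ[ℚ] L) ζL F).symm
    rw [h2, ← aeval_algHom_apply, map_pow, ← hF k, hxg]
    exact hf _ _ (Pool.Agent.Q11.CZ.zpowers_pow hco g)
  obtain ⟨q, hq⟩ := IntermediateField.mem_bot.mp ((IsGalois.mem_bot_iff_fixed x).mpr hfix)
  refine ⟨q, ?_⟩
  rw [← hxg, ← hq]
  simp

lemma ZC_of_rat {f : G → ℂ} (hpf : ∀ ζ : ℂ, IsPrimitiveRoot ζ (Nat.card G) → PF ζ f)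
    (hf : ∀ g : G, ∃ q : ℚ, f g = q) : f ∈ ZC G := by
  intro g g' hgg
  obtain ⟨u, hu⟩ := Pool.Agent.Q11.CZ.exists_unit hgg
  have hk := ZMod.val_coe_unit_coprime u
  set k := (u : ZMod (Nat.card G)).val with hkdef
  have hζ : IsPrimitiveRoot (Complex.exp (2 * Real.pi * Complex.I / (Nat.card G : ℂ)))
    (Nat.card G) := Complex.isPrimitiveRoot_exp _ Nat.card_pos.ne'
  set ζ := Complex.exp (2 * Real.pi * Complex.I / (Nat.card G : ℂ)) with hζdef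
  obtain ⟨F, hF⟩ := hpf ζ hζ g
  obtain ⟨q, hq⟩ := hf g
  have h1 : aeval ζ (F - C q) = 0 := by
    have h2 := hF 1
    rw [pow_one, pow_one, hq] at h2
    rw [map_sub, ← h2, aeval_C]
    simp
  have h3 : minpoly ℚ (ζ ^ k) = minpoly ℚ ζ := by
    rw [← cyclotomic_eq_minpoly_rat hζ Nat.card_pos,
      ← cyclotomic_eq_minpoly_rat (hζ.pow_of_coprime k hk) Nat.card_pos]
  have h4 : aeval (ζ ^ k) (F - C q) = 0 := by
    obtain ⟨R, hR⟩ := minpoly.dvd ℚ ζ h1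
    rw [hR, map_mul, ← h3, minpoly.aeval, zero_mul]
  rw [hu, hF k, hq]
  rw [map_sub, aeval_C] at h4
  have h5 := sub_eq_zero.mp h4
  rw [h5]
  simp

lemma irr_rat_iff {χ : G → ℂ} (hχ : IsIrr χ) : χ ∈ ZC G ↔ ∀ g : G, ∃ q : ℚ, χ g = q :=
  ⟨rat_of_ZC fun _ hζ => PF_irr hχ hζ, ZC_of_rat fun _ hζ => PF_irr hχ hζ⟩

lemma add_inv_eq {χ : G → ℂ} (hχ : IsIrr χ) (g : G) : χ g + χ g⁻¹ = ((2 * (χ g).re : ℝ) : ℂ) := by
  rw [Pool.Agent.R721.CD.char_inv (IsRepChar.of_irr hχ) g, Complex.add_conj]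

lemma sym_rat_iff {χ : G → ℂ} (hχ : IsIrr χ) :
    (fun g => χ g + χ g⁻¹) ∈ ZC G ↔ ∀ g : G, ∃ q : ℚ, (χ g).re = q := by
  have hpf : ∀ ζ : ℂ, IsPrimitiveRoot ζ (Nat.card G) → PF ζ (fun g => χ g + χ g⁻¹) :=
    fun _ hζ => PF_add (PF_irr hχ hζ) (PF_inv (PF_irr hχ hζ))
  constructor
  · intro h g
    obtain ⟨q, hq⟩ := rat_of_ZC hpf h g
    have h1 : χ g + χ g⁻¹ = q := hq
    rw [add_inv_eq hχ] at h1
    have h2 : 2 * (χ g).re = (q : ℝ) := by exact_mod_cast h1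
    refine ⟨q / 2, ?_⟩
    push_cast
    linarith
  · intro h
    apply ZC_of_rat hpf
    intro g
    obtain ⟨q, hq⟩ := h g
    refine ⟨2 * q, ?_⟩
    rw [add_inv_eq hχ, hq]
    push_cast
    rfl

end Pool.Agent.J4.H53.Cx
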