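import Pool.Agent.J4.H53.Cx.Ker
import Pool.Agent.Q11.CZ.Avg

/-!
# The spans of Colmez's functions of a set with a group action
-/

set_option autoImplicit false
set_option linter.unusedSectionVars false

open scoped Classical BigOperators

namespace Pool.Agent.J4.H53.Cx

open Pool.Agent.Helper884 Pool.Agent.H254R3.IN
open Pool.Agent.Q11.CZ (IsHalf a0 T isHalf_toggle a0_add T_add a0_isClass T_isClass T_inv)

variable {G : Type} [Group G] [Fintype G] {c : G} {X : Type} [Fintype X] [MulAction G X]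

/-- twice the character of the odd functions on `X` -/
noncomputable def pic (c : G) (X : Type) [Fintype X] [MulAction G X] (g : G) : ℂ :=
  ((Finset.univ.filter fun x : X => g • x = x).card : ℂ) -
    ((Finset.univ.filter fun x : X => g • x = c • x).card : ℂ)

/-- the irreducible characters in the odd functions on `X` -/
def Occ (c : G) (X : Type) [Fintype X] [MulAction G X] (χ : G → ℂ) : Prop :=
  IsIrr χ ∧ ∑ g : G, χ g * pic c X g ≠ 0

lemma pic_sum (χ : G → ℂ) : ∑ g : G, χ g * pic c X g =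
    ∑ x : X, tk χ x x - ∑ x : X, tk χ x (c • x) := by
  unfold pic tk
  rw [Finset.sum_comm, Finset.sum_comm (s := (Finset.univ : Finset X)), ← Finset.sum_sub_distrib]
  refine Finset.sum_congr rfl fun g _ => ?_
  rw [mul_sub]
  congr 1
  · rw [← Finset.sum_filter, Finset.sum_const, nsmul_eq_mul, mul_comm]
  · rw [← Finset.sum_filter, Finset.sum_const, nsmul_eq_mul, mul_comm]

section
variable (hc : ∀ g, c * g = g * c) (hc2 : c * c = 1)
include hc hc2

lemma tk_even (f : G → ℂ) (hf : ∀ g, f (c * g) = f g) (x y : X) : tk f x (c • y) = tk f x y := by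
  unfold tk
  refine Fintype.sum_equiv (Equiv.mulLeft c) _ _ fun g => ?_
  change (if g • x = c • y then f g else 0) = if (c * g) • x = y then f (c * g) else 0
  have h1 : g • x = c • y ↔ (c * g) • x = y := by
    rw [mul_smul]
    constructor
    · intro h; rw [h, ← mul_smul, hc2, one_smul]
    · intro h; rw [← h, ← mul_smul, hc2, one_smul]
  by_cases h : g • x = c • y
  · rw [if_pos h, if_pos (h1.mp h), hf]
  · rw [if_neg h, if_neg (fun h' => h (h1.mpr h'))]

lemma Occ.odd {χ : G → ℂ} (h : Occ c X χ) : ∀ g, χ (c * g) = - χ g := by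
  rcases sign h.1 hc hc2 with h1 | h1
  · exfalso
    apply h.2
    rw [pic_sum]
    simp only [tk_even hc hc2 χ h1, sub_self]
  · exact h1

lemma pic_sum_odd {χ : G → ℂ} (h : ∀ g, χ (c * g) = - χ g) :
    ∑ g : G, χ g * pic c X g = 2 * ∑ x : X, tk χ x x := by
  rw [pic_sum]
  simp only [tk_smul_right χ h hc2, Finset.sum_neg_distrib]
  ring

lemma Occ.ne {χ : G → ℂ} (h : Occ c X χ) : ∃ x y : X, tk χ x y ≠ 0 := by
  by_contra hno
  push Not at hno
  apply h.2
  rw [pic_sum_odd hc hc2 (h.odd hc hc2)]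
  simp only [hno, Finset.sum_const_zero, mul_zero]

lemma tk_of_not {χ : G → ℂ} (hχ : IsIrr χ) (hodd : ∀ g, χ (c * g) = - χ g)
    (h : ¬ Occ c X χ) (x y : X) : tk χ x y = 0 := by
  apply tk_zero_of_trace hχ
  by_contra hne
  apply h
  refine ⟨hχ, ?_⟩
  rw [pic_sum_odd hc hc2 hodd]
  exact mul_ne_zero two_ne_zero hne

end

/-- Colmez's function with complex values -/
noncomputable def ac (x : X) (Φ : Finset X) (g : G) : ℂ := ((a0 x Φ g : ℚ) : ℂ)

/-- the sum over the points of the half -/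
noncomputable def Tc (Φ : Finset X) (g : G) : ℂ := ((T Φ g : ℚ) : ℂ)

lemma Tc_eq (Φ : Finset X) (g : G) : Tc Φ g = ∑ x ∈ Φ, ac x Φ g := by
  unfold Tc T ac
  push_cast
  rfl

lemma cl_sum_conj {θ : G → ℂ} (hθ : IsCl θ) (F : G → ℂ) (h : G) :
    ∑ g : G, θ g * F (h⁻¹ * g * h) = ∑ g : G, θ g * F g := by
  refine Fintype.sum_equiv (MulAut.conj h⁻¹).toEquiv _ _ fun g => ?_
  have e1 : (MulAut.conj h⁻¹).toEquiv g = h⁻¹ * g * h := by simp
  rw [e1]
  have h2 : θ (h⁻¹ * g * h) = θ g := by simpa using hθ g h⁻¹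
  rw [h2]

lemma pair_ac {θ : G → ℂ} (hθ : IsCl θ) (x : X) (Φ : Finset X) :
    ∑ g : G, θ g * ac x Φ g = ∑ y ∈ Φ, tk θ x y := by
  have hcard : (Fintype.card G : ℂ) ≠ 0 := by exact_mod_cast Fintype.card_pos.ne'
  have h1 : ∀ g : G, ac x Φ g = (∑ h : G, if (h⁻¹ * g * h) • x ∈ Φ then (1 : ℂ) else 0) /
      Fintype.card G := by
    intro g
    unfold ac a0
    push_cast
    rw [Finset.sum_boole]
  have h2 : ∀ g : G, θ g * ac x Φ g = (∑ h : G, θ g *
      (if (h⁻¹ * g * h) • x ∈ Φ then (1 : ℂ) else 0)) / Fintype.card G := by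
    intro g
    rw [h1, ← Finset.mul_sum, mul_div_assoc]
  rw [Finset.sum_congr rfl fun g _ => h2 g, ← Finset.sum_div, Finset.sum_comm]
  have h3 : ∀ h : G, ∑ g : G, θ g * (if (h⁻¹ * g * h) • x ∈ Φ then (1 : ℂ) else 0) =
      ∑ g : G, θ g * (if g • x ∈ Φ then (1 : ℂ) else 0) :=
    fun h => cl_sum_conj hθ (fun g => if g • x ∈ Φ then (1 : ℂ) else 0) h
  rw [Finset.sum_congr rfl fun h _ => h3 h, Finset.sum_const, Finset.card_univ, nsmul_eq_mul,
    mul_div_assoc, mul_comm (Fintype.card G : ℂ), div_mul_cancel₀ _ hcard]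
  unfold tk
  rw [Finset.sum_comm]
  refine Finset.sum_congr rfl fun g _ => ?_
  rw [Finset.sum_ite_eq Φ (g • x)]
  split_ifs <;> simp

lemma pair_Tc {θ : G → ℂ} (hθ : IsCl θ) (Φ : Finset X) :
    ∑ g : G, θ g * Tc Φ g = ∑ x ∈ Φ, ∑ y ∈ Φ, tk θ x y := by
  simp only [Tc_eq, Finset.mul_sum]
  rw [Finset.sum_comm]
  exact Finset.sum_congr rfl fun x _ => pair_ac hθ x Φ

lemma ac_cl (x : X) (Φ : Finset X) : IsCl (ac x Φ : G → ℂ) := by
  intro g y
  unfold ac
  have h1 := a0_isClass x Φ g y⁻¹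
  rw [inv_inv] at h1
  rw [h1]

lemma Tc_cl (Φ : Finset X) : IsCl (Tc Φ : G → ℂ) := by
  intro g y
  unfold Tc
  have h1 := T_isClass Φ g y⁻¹
  rw [inv_inv] at h1
  rw [h1]

/-- toggling a pair of points -/
noncomputable def tog (c : G) (Φ : Finset X) (a : X) : Finset X := insert (c • a) (Φ.erase a)

section tog
variable (hc2 : c * c = 1)
include hc2

lemma cc (a : X) : c • c • a = a := by rw [← mul_smul, hc2, one_smul]

lemma tog_half {Φ : Finset X} (hΦ : IsHalf c Φ) {a : X} (ha : a ∈ Φ) : IsHalf c (tog c Φ a) := by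
  have hca : c • a ∉ Φ := fun h => ((hΦ a).mp h) ha
  have hne : c • a ≠ a := fun h => hca (by rw [h]; exact ha)
  intro y
  unfold tog
  simp only [Finset.mem_insert, Finset.mem_erase]
  by_cases h1 : y = a
  · subst h1
    constructor
    · rintro - (h | h)
      · exact hne h.symm
      · exact h.1 rfl
    · intro _
      left; rfl
  · by_cases h2 : y = c • a
    · subst h2
      rw [cc hc2]
      constructor
      · rintro (h | h)
        · exact absurd h.symm hne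
        · exact absurd rfl h.1
      · intro h
        exact absurd (Or.inl rfl) h
    · have h3 : c • y ≠ c • a := fun h => h1 (MulAction.injective c h)
      have h4 : c • y ≠ a := fun h => h2 (by rw [← h, cc hc2])
      constructor
      · rintro (h | h)
        · exact absurd h h3
        · rintro (h' | h')
          · exact h2 h'
          · exact ((hΦ y).mp h.2) h'.2
      · intro h
        right
        refine ⟨h4, (hΦ y).mpr fun h' => h (Or.inr ⟨h1, h'⟩)⟩

lemma tog_sum {Φ : Finset X} (hΦ : IsHalf c Φ) {a : X} (ha : a ∈ Φ) (F : X → ℂ) :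
    ∑ y ∈ tog c Φ a, F y = ∑ y ∈ Φ, F y - F a + F (c • a) := by
  have hca : c • a ∉ Φ := fun h => ((hΦ a).mp h) ha
  unfold tog
  rw [Finset.sum_insert (fun h => hca (Finset.mem_of_mem_erase h)),
    ← Finset.add_sum_erase Φ F ha]
  ring

/-- a half through a point -/
lemma exists_thru {Φ : Finset X} (hΦ : IsHalf c Φ) (a : X) : ∃ Φ' : Finset X, IsHalf c Φ' ∧ a ∈ Φ' ∧
    ∀ z, z ≠ a → z ≠ c • a → (z ∈ Φ' ↔ z ∈ Φ) := by
  by_cases ha : a ∈ Φ
  · exact ⟨Φ, hΦ, ha, fun z _ _ => Iff.rfl⟩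
  · have h1 : c • a ∈ Φ := (hΦ a).mpr ha
    refine ⟨tog c Φ (c • a), tog_half hc2 hΦ h1, ?_, ?_⟩
    · unfold tog
      rw [cc hc2]
      exact Finset.mem_insert_self _ _
    · intro z hz1 hz2
      unfold tog
      rw [cc hc2]
      simp [hz1, hz2]

/-- an odd function with sum zero over all halves vanishes -/
lemma odd_zero (hex : ∃ Φ : Finset X, IsHalf c Φ) {F : X → ℂ} (hF : ∀ y, F (c • y) = - F y)
    (h0 : ∀ Φ : Finset X, IsHalf c Φ → ∑ y ∈ Φ, F y = 0) (y : X) : F y = 0 := by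
  obtain ⟨Φ, hΦ⟩ := hex
  obtain ⟨Φ', hΦ', hy, -⟩ := exists_thru hc2 hΦ y
  have h1 := tog_sum hc2 hΦ' hy F
  rw [h0 _ hΦ', h0 _ (tog_half hc2 hΦ' hy), hF] at h1
  have h2 : 2 * F y = 0 := by linear_combination h1
  exact (mul_eq_zero.mp h2).resolve_left two_ne_zero

/-- a symmetric invariant kernel with sum zero over all halves vanishes -/
lemma sym_zero [MulAction.IsPretransitive G X] (hex : ∃ Φ : Finset X, IsHalf c Φ)
    {t : X → X → ℂ} (hodd : ∀ x y, t x (c • y) = - t x y) (hsym : ∀ x y, t x y = t y x)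
    (hinv : ∀ (h : G) (x y : X), t (h • x) (h • y) = t x y)
    (h0 : ∀ Φ : Finset X, IsHalf c Φ → ∑ x ∈ Φ, ∑ y ∈ Φ, t x y = 0) (a b : X) : t a b = 0 := by
  have hodd' : ∀ x y, t (c • x) y = - t x y := by
    intro x y
    rw [hsym, hodd, hsym]
  -- the sums over the other points
  have h1 : ∀ Φ : Finset X, IsHalf c Φ → ∀ a ∈ Φ, ∑ y ∈ Φ, t a y = t a a := by
    intro Φ hΦ a ha
    have h2 := h0 _ (tog_half hc2 hΦ ha)
    rw [tog_sum hc2 hΦ ha] at h2
    simp only [tog_sum hc2 hΦ ha, hodd, hodd'] at h2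
    have h3 := h0 Φ hΦ
    have h4 : ∑ x ∈ Φ, (∑ y ∈ Φ, t x y - t x a + - t x a) =
        ∑ x ∈ Φ, ∑ y ∈ Φ, t x y - 2 * ∑ x ∈ Φ, t x a := by
      rw [Finset.mul_sum, ← Finset.sum_sub_distrib]
      exact Finset.sum_congr rfl fun x _ => by ring
    have h5 : ∑ x ∈ Φ, t x a = ∑ y ∈ Φ, t a y := Finset.sum_congr rfl fun x _ => hsym x a
    rw [h4, h3, h5, Finset.sum_neg_distrib] at h2
    have h6 : 4 * (∑ y ∈ Φ, t a y - t a a) = 0 := by linear_combination -h2
    have h7 := (mul_eq_zero.mp h6).resolve_left (by norm_num)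
    linear_combination h7
  have h2 : ∀ a b : X, b ≠ a → b ≠ c • a → t a b = 0 := by
    intro a b hb1 hb2
    obtain ⟨Φ, hΦ⟩ := hex
    obtain ⟨Φ1, hΦ1, ha1, -⟩ := exists_thru hc2 hΦ a
    obtain ⟨Φ2, hΦ2, hb, h3⟩ := exists_thru hc2 hΦ1 b
    have ha2 : a ∈ Φ2 := (h3 a hb1.symm (fun h => hb2 (by rw [h, cc hc2]))).mpr ha1
    have h4 := h1 Φ2 hΦ2 a ha2
    have h5 : a ∈ tog c Φ2 b := by
      unfold tog
      rw [Finset.mem_insert, Finset.mem_erase]
      exact Or.inr ⟨hb1.symm, ha2⟩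
    have h6 := h1 _ (tog_half hc2 hΦ2 hb) a h5
    rw [tog_sum hc2 hΦ2 hb, h4, hodd] at h6
    have h7 : 2 * t a b = 0 := by linear_combination -h6
    exact (mul_eq_zero.mp h7).resolve_left two_ne_zero
  have h3 : ∀ a : X, t a a = 0 := by
    intro a
    obtain ⟨Φ, hΦ⟩ := hex
    obtain ⟨Φ1, hΦ1, ha1, -⟩ := exists_thru hc2 hΦ a
    have h4 := h0 Φ1 hΦ1
    have h5 : ∀ x ∈ Φ1, ∑ y ∈ Φ1, t x y = t a a := by
      intro x hx
      rw [h1 Φ1 hΦ1 x hx]
      obtain ⟨g, rfl⟩ := MulAction.exists_smul_eq G a x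
      rw [hinv]
    rw [Finset.sum_congr rfl h5, Finset.sum_const, nsmul_eq_mul] at h4
    have h6 : (Φ1.card : ℂ) ≠ 0 := by
      exact_mod_cast (Finset.card_pos.mpr ⟨a, ha1⟩).ne'
    exact (mul_eq_zero.mp h4).resolve_left h6
  by_cases h4 : b = a
  · subst h4; exact h3 b
  · by_cases h5 : b = c • a
    · rw [h5, hodd, h3, neg_zero]
    · exact h2 a b h4 h5

end tog

end Pool.Agent.J4.H53.Cx
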