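import Pool.Agent.J4.H53.Cx.Span

/-!
# The spans of Colmez's functions in terms of irreducible characters
-/

set_option autoImplicit false
set_option linter.unusedSectionVars false

open scoped Classical BigOperators

namespace Pool.Agent.J4.H53.Cx

open Pool.Agent.Helper884 Pool.Agent.H254R3.IN
open Pool.Agent.Q11.CZ (IsHalf a0 T isHalf_toggle a0_add T_add a0_isClass T_isClass T_inv)

variable {G : Type} [Group G] [Fintype G]

/-- the span of `1` and a set of functions -/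
def sp1 (S : Set (G → ℂ)) : Submodule ℂ (G → ℂ) := Submodule.span ℂ ({fun _ => 1} ∪ S)

lemma one_mem_sp1 (S : Set (G → ℂ)) : (fun _ => 1) ∈ sp1 S :=
  Submodule.subset_span (Or.inl rfl)

lemma const_mem_sp1 (S : Set (G → ℂ)) (s : ℂ) : (fun _ => s) ∈ sp1 S := by
  have h1 : (fun _ : G => s) = s • (fun _ => (1 : ℂ)) := by
    funext g; simp
  rw [h1]
  exact Submodule.smul_mem _ _ (one_mem_sp1 S)

lemma mem_sp1 {S : Set (G → ℂ)} {f : G → ℂ} (h : f ∈ S) : f ∈ sp1 S :=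
  Submodule.subset_span (Or.inr h)

lemma sp1_le {S : Set (G → ℂ)} {V : Submodule ℂ (G → ℂ)} (h1 : (fun _ => 1) ∈ V)
    (h : ∀ f ∈ S, f ∈ V) : sp1 S ≤ V := by
  rw [sp1, Submodule.span_le]
  rintro f (hf | hf)
  · rw [Set.mem_singleton_iff] at hf
    rw [hf]; exact h1
  · exact h f hf

section
variable {c : G} (hc : ∀ g, c * g = g * c) (hc2 : c * c = 1)
include hc hc2

lemma sum_odd {f : G → ℂ} (hf : ∀ g, f (c * g) = - f g) : ∑ g : G, f g = 0 := by
  have h1 : ∑ g : G, f g = ∑ g : G, f (c * g) :=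
    (Fintype.sum_equiv (Equiv.mulLeft c) _ _ fun g => rfl).symm
  simp only [hf, Finset.sum_neg_distrib] at h1
  have h2 : 2 * ∑ g : G, f g = 0 := by linear_combination h1
  exact (mul_eq_zero.mp h2).resolve_left two_ne_zero

lemma c_inv (g : G) : (c * g)⁻¹ = c * g⁻¹ := by
  have h1 : c⁻¹ = c := inv_eq_of_mul_eq_one_left hc2
  rw [mul_inv_rev, h1, hc]

lemma exp_odd {P : (G → ℂ) → Prop} {o : G → ℂ} (ho : IsCl o) (hodd : ∀ g, o (c * g) = - o g)
    (hpair : ∀ χ, IsIrr χ → (∀ g, χ (c * g) = - χ g) → ¬ P χ → ∑ g : G, χ g⁻¹ * o g = 0) :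
    o = ∑ χ ∈ (IC.Irr G).filter P, IC.B o χ • χ := by
  conv_lhs => rw [IC.expand o ho]
  symm
  apply Finset.sum_subset (Finset.filter_subset _ _)
  intro χ hχ hχ'
  have h1 : IsIrr χ := mem_Irr.mp hχ
  have h2 : ¬ P χ := fun h => hχ' (Finset.mem_filter.mpr ⟨hχ, h⟩)
  have h3 : ∑ g : G, o g * χ g⁻¹ = 0 := by
    rcases sign h1 hc hc2 with h4 | h4
    · apply sum_odd hc hc2
      intro g
      rw [hodd, c_inv hc hc2, h4]
      ring
    · rw [← hpair χ h1 h4 h2]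
      exact Finset.sum_congr rfl fun g _ => mul_comm _ _
  unfold IC.B
  rw [h3, mul_zero, zero_smul]

/-- **duality** -/
lemma mem_of_dual {W : Submodule ℂ (G → ℂ)} (h1 : (fun _ => 1) ∈ W) (hcl : ∀ w ∈ W, IsCl w)
    (hs : ∀ w ∈ W, ∃ s : ℂ, ∀ g, w g + w (c * g) = s) {f : G → ℂ} (hf : IsCl f)
    (hfo : ∀ g, f (c * g) = - f g)
    (H : ∀ θ : G → ℂ, IsCl θ → (∀ g, θ (c * g) = - θ g) → (∀ w ∈ W, ∑ g : G, θ g * w g = 0) →
      ∑ g : G, θ g * f g = 0) : f ∈ W := by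
  by_contra hno
  obtain ⟨ℓ, hℓ, hW⟩ := Submodule.exists_le_ker_of_notMem hno
  set θ0 : G → ℂ := fun g => ℓ (Pi.single g 1) with hθ0
  have e0 : ∀ h : G → ℂ, ℓ h = ∑ g : G, θ0 g * h g := by
    intro h
    have h2 : h = ∑ g : G, h g • (Pi.single g (1 : ℂ) : G → ℂ) := by
      funext x
      simp [Finset.sum_apply, Pi.single_apply]
    conv_lhs => rw [h2]
    rw [map_sum]
    refine Finset.sum_congr rfl fun g _ => ?_
    rw [map_smul, smul_eq_mul, mul_comm]
  set θ1 : G → ℂ := fun g => ∑ h : G, θ0 (h * g * h⁻¹) with hθ1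
  have hθ1cl : IsCl θ1 := by
    intro g y
    simp only [hθ1]
    refine Fintype.sum_equiv (Equiv.mulRight y) _ _ fun h => ?_
    simp only [Equiv.coe_mulRight]
    congr 1
    group
  have e1 : ∀ h : G → ℂ, IsCl h → ∑ g : G, θ1 g * h g = (Fintype.card G : ℂ) * ℓ h := by
    intro h hh
    simp only [hθ1, Finset.sum_mul]
    rw [Finset.sum_comm]
    have h2 : ∀ y : G, ∑ g : G, θ0 (y * g * y⁻¹) * h g = ℓ h := by
      intro y
      rw [e0]
      refine Fintype.sum_equiv (MulAut.conj y).toEquiv _ _ fun g => ?_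
      have e2 : (MulAut.conj y).toEquiv g = y * g * y⁻¹ := by simp
      rw [e2, hh]
    rw [Finset.sum_congr rfl fun y _ => h2 y, Finset.sum_const, Finset.card_univ, nsmul_eq_mul]
  set θ2 : G → ℂ := fun g => θ1 g - θ1 (c * g) with hθ2
  have hθ2cl : IsCl θ2 := by
    intro g y
    simp only [hθ2]
    have e2 : c * (y * g * y⁻¹) = y * (c * g) * y⁻¹ := by
      rw [← mul_assoc, ← mul_assoc, hc y]
      simp only [mul_assoc]
    rw [e2, hθ1cl, hθ1cl]
  have hθ2o : ∀ g, θ2 (c * g) = - θ2 g := by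
    intro g
    simp only [hθ2]
    rw [← mul_assoc, hc2, one_mul]
    ring
  have e2 : ∀ h : G → ℂ, IsCl h → (∀ g, h (c * g) = - h g) →
      ∑ g : G, θ2 g * h g = 2 * ((Fintype.card G : ℂ) * ℓ h) := by
    intro h hh ho
    rw [← e1 h hh]
    simp only [hθ2, sub_mul, Finset.sum_sub_distrib]
    have h3 : ∑ g : G, θ1 (c * g) * h g = ∑ g : G, θ1 g * h (c * g) := by
      refine Fintype.sum_equiv (Equiv.mulLeft c) _ _ fun g => ?_
      simp only [Equiv.coe_mulLeft]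
      rw [← mul_assoc, hc2, one_mul]
    rw [h3]
    simp only [ho, mul_neg, Finset.sum_neg_distrib]
    ring
  have h3 : ∀ w ∈ W, ∑ g : G, θ2 g * w g = 0 := by
    intro w hw
    obtain ⟨s, hs'⟩ := hs w hw
    set o : G → ℂ := fun g => w g - s / 2 with ho
    have hoW : o ∈ W := by
      have h4 : o = w - (s / 2) • (fun _ => (1 : ℂ)) := by
        funext g; simp [ho]
      rw [h4]
      exact Submodule.sub_mem _ hw (Submodule.smul_mem _ _ h1)
    have hoo : ∀ g, o (c * g) = - o g := by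
      intro g
      simp only [ho]
      linear_combination hs' g
    have h5 : ∑ g : G, θ2 g * o g = 0 := by
      rw [e2 o (hcl o hoW) hoo]
      have h6 : ℓ o = 0 := hW hoW
      rw [h6]
      ring
    have h6 : ∑ g : G, θ2 g = 0 := sum_odd hc hc2 hθ2o
    have h7 : ∑ g : G, θ2 g * w g = ∑ g : G, θ2 g * o g + (s / 2) * ∑ g : G, θ2 g := by
      rw [Finset.mul_sum, ← Finset.sum_add_distrib]
      refine Finset.sum_congr rfl fun g _ => ?_
      simp only [ho]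
      ring
    rw [h7, h5, h6]
    ring
  have h4 := H θ2 hθ2cl hθ2o h3
  rw [e2 f hf hfo] at h4
  have hcard : (Fintype.card G : ℂ) ≠ 0 := by exact_mod_cast Fintype.card_pos.ne'
  rcases mul_eq_zero.mp h4 with h5 | h5
  · exact two_ne_zero h5
  · rcases mul_eq_zero.mp h5 with h6 | h6
    · exact hcard h6
    · exact hℓ h6

/-- duality for symmetric functions -/
lemma mem_of_dual_sym {W : Submodule ℂ (G → ℂ)} (h1 : (fun _ => 1) ∈ W) (hcl : ∀ w ∈ W, IsCl w)
    (hs : ∀ w ∈ W, ∃ s : ℂ, ∀ g, w g + w (c * g) = s) (hsy : ∀ w ∈ W, ∀ g, w g⁻¹ = w g)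
    {f : G → ℂ} (hf : IsCl f) (hfo : ∀ g, f (c * g) = - f g) (hfs : ∀ g, f g⁻¹ = f g)
    (H : ∀ θ : G → ℂ, IsCl θ → (∀ g, θ (c * g) = - θ g) → (∀ g, θ g⁻¹ = θ g) →
      (∀ w ∈ W, ∑ g : G, θ g * w g = 0) → ∑ g : G, θ g * f g = 0) : f ∈ W := by
  apply mem_of_dual hc hc2 h1 hcl hs hf hfo
  intro θ hθ hθo hθW
  have key : ∀ h : G → ℂ, (∀ g, h g⁻¹ = h g) →
      ∑ g : G, (θ g + θ g⁻¹) * h g = 2 * ∑ g : G, θ g * h g := by
    intro h hh
    simp only [add_mul, Finset.sum_add_distrib]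
    have h2 : ∑ g : G, θ g⁻¹ * h g = ∑ g : G, θ g * h g := by
      refine Fintype.sum_equiv (Equiv.inv G) _ _ fun g => ?_
      simp only [Equiv.inv_apply]
      rw [hh]
    rw [h2]
    ring
  have h2 := H (fun g => θ g + θ g⁻¹) (fun g y => by
      change θ (y * g * y⁻¹) + θ (y * g * y⁻¹)⁻¹ = θ g + θ g⁻¹
      rw [hθ, show (y * g * y⁻¹)⁻¹ = y * g⁻¹ * y⁻¹ by group, hθ])
    (fun g => by
      change θ (c * g) + θ (c * g)⁻¹ = - (θ g + θ g⁻¹)
      rw [c_inv hc hc2, hθo, hθo]; ring)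
    (fun g => by
      change θ g⁻¹ + θ g⁻¹⁻¹ = θ g + θ g⁻¹
      rw [inv_inv]; ring)
    (fun w hw => by
      change ∑ g : G, (θ g + θ g⁻¹) * w g = 0
      rw [key w (hsy w hw), hθW w hw, mul_zero])
  rw [key f hfs] at h2
  exact (mul_eq_zero.mp h2).resolve_left two_ne_zero

variable {X : Type} [Fintype X] [MulAction G X]

lemma ac_add (x : X) {Φ : Finset X} (hΦ : IsHalf c Φ) (g : G) :
    ac x Φ g + ac x Φ (c * g) = 1 := by
  unfold ac
  exact_mod_cast a0_add hc x hΦ g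

lemma Tc_add {Φ : Finset X} (hΦ : IsHalf c Φ) (g : G) :
    Tc Φ g + Tc Φ (c * g) = Φ.card := by
  unfold Tc
  exact_mod_cast T_add hc hΦ g

omit hc hc2 in
lemma Tc_inv (Φ : Finset X) (g : G) : Tc Φ g⁻¹ = Tc Φ g := by
  unfold Tc
  rw [T_inv]

lemma pair_ac_zero {χ : G → ℂ} (hχ : IsIrr χ) (hodd : ∀ g, χ (c * g) = - χ g)
    (h : ¬ Occ c X χ) (x : X) (Φ : Finset X) : ∑ g : G, χ g⁻¹ * ac x Φ g = 0 := by
  have h1 := pair_ac (cl_inv hχ.conj) x Φ
  rw [h1]
  refine Finset.sum_eq_zero fun y _ => ?_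
  rw [tk_inv]
  exact tk_of_not hc hc2 hχ hodd h y x

/-- Colmez's functions are combinations of `1` and the characters which occur. -/
lemma ac_mem {x : X} {Φ : Finset X} (hΦ : IsHalf c Φ) : ac x Φ ∈ sp1 {χ : G → ℂ | Occ c X χ} := by
  set o : G → ℂ := fun g => ac x Φ g - 1 / 2 with ho
  have h1 : o = ∑ χ ∈ (IC.Irr G).filter (fun χ => Occ c X χ), IC.B o χ • χ := by
    apply exp_odd hc hc2
    · intro g y
      simp only [ho]
      rw [ac_cl]
    · intro g
      simp only [ho]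
      linear_combination ac_add hc hc2 x hΦ g
    · intro χ hχ hodd hno
      have h2 := pair_ac_zero hc hc2 hχ hodd hno x Φ
      have h3 : ∑ g : G, χ g⁻¹ = 0 := by
        apply sum_odd hc hc2
        intro g
        rw [c_inv hc hc2, hodd]
      have h4 : ∑ g : G, χ g⁻¹ * o g = ∑ g : G, χ g⁻¹ * ac x Φ g - (1 / 2) * ∑ g : G, χ g⁻¹ := by
        rw [Finset.mul_sum, ← Finset.sum_sub_distrib]
        refine Finset.sum_congr rfl fun g _ => ?_
        simp only [ho]; ring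
      rw [h4, h2, h3]; ring
  have h2 : ac x Φ = o + fun _ => (1 / 2 : ℂ) := by
    funext g; simp [ho]
  rw [h2, h1]
  refine Submodule.add_mem _ (Submodule.sum_mem _ fun χ hχ => Submodule.smul_mem _ _ ?_)
    (const_mem_sp1 _ _)
  exact mem_sp1 (Finset.mem_filter.mp hχ).2

lemma Tc_mem {Φ : Finset X} (hΦ : IsHalf c Φ) :
    Tc Φ ∈ sp1 {F : G → ℂ | ∃ χ, Occ c X χ ∧ F = fun g => χ g + χ g⁻¹} := by
  set o : G → ℂ := fun g => Tc Φ g - Φ.card / 2 with ho
  have h1 : o = ∑ χ ∈ (IC.Irr G).filter (fun χ => Occ c X χ), IC.B o χ • χ := by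
    apply exp_odd hc hc2
    · intro g y
      simp only [ho]
      rw [Tc_cl]
    · intro g
      simp only [ho]
      linear_combination Tc_add hc hc2 hΦ g
    · intro χ hχ hodd hno
      have h2 : ∑ g : G, χ g⁻¹ * Tc Φ g = 0 := by
        simp only [Tc_eq, Finset.mul_sum]
        rw [Finset.sum_comm]
        exact Finset.sum_eq_zero fun x _ => pair_ac_zero hc hc2 hχ hodd hno x Φ
      have h3 : ∑ g : G, χ g⁻¹ = 0 := by
        apply sum_odd hc hc2
        intro g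
        rw [c_inv hc hc2, hodd]
      have h4 : ∑ g : G, χ g⁻¹ * o g = ∑ g : G, χ g⁻¹ * Tc Φ g -
          (Φ.card / 2) * ∑ g : G, χ g⁻¹ := by
        rw [Finset.mul_sum, ← Finset.sum_sub_distrib]
        refine Finset.sum_congr rfl fun g _ => ?_
        simp only [ho]; ring
      rw [h4, h2, h3]; ring
  have h2 : o = ∑ χ ∈ (IC.Irr G).filter (fun χ => Occ c X χ),
      (IC.B o χ / 2) • (fun g => χ g + χ g⁻¹) := by
    funext g
    have h3 : o g = (o g + o g⁻¹) / 2 := by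
      simp only [ho]
      rw [Tc_inv]; ring
    rw [h3]
    conv_lhs => rw [h1]
    simp only [Finset.sum_apply, Pi.smul_apply, smul_eq_mul]
    rw [← Finset.sum_add_distrib, Finset.sum_div]
    refine Finset.sum_congr rfl fun χ _ => ?_
    ring
  have h3 : Tc Φ = o + fun _ => (Φ.card / 2 : ℂ) := by
    funext g; simp [ho]
  rw [h3, h2]
  refine Submodule.add_mem _ (Submodule.sum_mem _ fun χ hχ => Submodule.smul_mem _ _ ?_)
    (const_mem_sp1 _ _)
  exact mem_sp1 ⟨χ, (Finset.mem_filter.mp hχ).2, rfl⟩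

variable [MulAction.IsPretransitive G X] (hex : ∃ Φ : Finset X, IsHalf c Φ)
include hex

/-- **The span of the functions `a⁰`.** -/
theorem spanA : sp1 {F : G → ℂ | ∃ (x : X) (Φ : Finset X), IsHalf c Φ ∧ F = ac x Φ} =
    sp1 {χ : G → ℂ | Occ c X χ} := by
  apply le_antisymm
  · apply sp1_le (one_mem_sp1 _)
    rintro f ⟨x, Φ, hΦ, rfl⟩
    exact ac_mem hc hc2 hΦ
  · apply sp1_le (one_mem_sp1 _)
    intro χ hχ
    have hχ' : Occ c X χ := hχ
    have hgen : ∀ w ∈ sp1 {F : G → ℂ | ∃ (x : X) (Φ : Finset X), IsHalf c Φ ∧ F = ac x Φ},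
        IsCl w ∧ ∃ s : ℂ, ∀ g, w g + w (c * g) = s := by
      intro w hw
      unfold sp1 at hw
      induction hw using Submodule.span_induction with
      | mem f hf =>
        rcases hf with hf | ⟨x, Φ, hΦ, rfl⟩
        · rw [Set.mem_singleton_iff] at hf
          rw [hf]
          exact ⟨fun _ _ => rfl, 1 + 1, fun _ => rfl⟩
        · exact ⟨ac_cl x Φ, 1, ac_add hc hc2 x hΦ⟩
      | zero => exact ⟨fun _ _ => rfl, 0, fun _ => by simp⟩
      | add f g _ _ hf hg =>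
        obtain ⟨f1, s, f2⟩ := hf
        obtain ⟨g1, s', g2⟩ := hg
        refine ⟨fun a b => ?_, s + s', fun a => ?_⟩
        · rw [Pi.add_apply, Pi.add_apply, f1, g1]
        · rw [Pi.add_apply, Pi.add_apply, ← f2 a, ← g2 a]; ring
      | smul r f _ hf =>
        obtain ⟨f1, s, f2⟩ := hf
        refine ⟨fun a b => ?_, r * s, fun a => ?_⟩
        · rw [Pi.smul_apply, Pi.smul_apply, f1]
        · rw [Pi.smul_apply, Pi.smul_apply, ← f2 a, smul_eq_mul, smul_eq_mul]; ring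
    apply mem_of_dual hc hc2 (one_mem_sp1 _) (fun w hw => (hgen w hw).1)
      (fun w hw => (hgen w hw).2) hχ'.1.conj (hχ'.odd hc hc2)
    intro θ hθ hθo hθW
    apply pair_zero (X := X) hχ'.1 hθ _ (hχ'.ne hc hc2)
    intro x y
    apply odd_zero hc2 hex (F := fun y => tk θ x y) (fun y => tk_smul_right θ hθo hc2 x y)
    intro Φ hΦ
    rw [← pair_ac hθ x Φ]
    exact hθW _ (mem_sp1 ⟨x, Φ, hΦ, rfl⟩)

/-- **The span of the height functions.** -/
theorem spanT : sp1 {F : G → ℂ | ∃ Φ : Finset X, IsHalf c Φ ∧ F = Tc Φ} =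
    sp1 {F : G → ℂ | ∃ χ, Occ c X χ ∧ F = fun g => χ g + χ g⁻¹} := by
  apply le_antisymm
  · apply sp1_le (one_mem_sp1 _)
    rintro f ⟨Φ, hΦ, rfl⟩
    exact Tc_mem hc hc2 hΦ
  · apply sp1_le (one_mem_sp1 _)
    rintro f ⟨χ, hχ, rfl⟩
    have hgen : ∀ w ∈ sp1 {F : G → ℂ | ∃ Φ : Finset X, IsHalf c Φ ∧ F = Tc Φ},
        IsCl w ∧ (∃ s : ℂ, ∀ g, w g + w (c * g) = s) ∧ ∀ g, w g⁻¹ = w g := by
      intro w hw
      unfold sp1 at hw
      induction hw using Submodule.span_induction with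
      | mem f hf =>
        rcases hf with hf | ⟨Φ, hΦ, rfl⟩
        · rw [Set.mem_singleton_iff] at hf
          rw [hf]
          exact ⟨fun _ _ => rfl, ⟨1 + 1, fun _ => rfl⟩, fun _ => rfl⟩
        · exact ⟨Tc_cl Φ, ⟨Φ.card, Tc_add hc hc2 hΦ⟩, Tc_inv Φ⟩
      | zero => exact ⟨fun _ _ => rfl, ⟨0, fun _ => by simp⟩, fun _ => rfl⟩
      | add f g _ _ hf hg =>
        obtain ⟨f1, ⟨s, f2⟩, f3⟩ := hf
        obtain ⟨g1, ⟨s', g2⟩, g3⟩ := hg
        refine ⟨fun a b => ?_, ⟨s + s', fun a => ?_⟩, fun a => ?_⟩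
        · rw [Pi.add_apply, Pi.add_apply, f1, g1]
        · rw [Pi.add_apply, Pi.add_apply, ← f2 a, ← g2 a]; ring
        · rw [Pi.add_apply, Pi.add_apply, f3, g3]
      | smul r f _ hf =>
        obtain ⟨f1, ⟨s, f2⟩, f3⟩ := hf
        refine ⟨fun a b => ?_, ⟨r * s, fun a => ?_⟩, fun a => ?_⟩
        · rw [Pi.smul_apply, Pi.smul_apply, f1]
        · rw [Pi.smul_apply, Pi.smul_apply, ← f2 a, smul_eq_mul, smul_eq_mul]; ring
        · rw [Pi.smul_apply, Pi.smul_apply, f3]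
    apply mem_of_dual_sym hc hc2 (one_mem_sp1 _) (fun w hw => (hgen w hw).1)
      (fun w hw => (hgen w hw).2.1) (fun w hw => (hgen w hw).2.2)
      (fun g y => by
        change χ (y * g * y⁻¹) + χ (y * g * y⁻¹)⁻¹ = χ g + χ g⁻¹
        rw [hχ.1.conj, show (y * g * y⁻¹)⁻¹ = y * g⁻¹ * y⁻¹ by group, hχ.1.conj])
      (fun g => by
        change χ (c * g) + χ (c * g)⁻¹ = - (χ g + χ g⁻¹)
        rw [c_inv hc hc2, hχ.odd hc hc2, hχ.odd hc hc2]; ring)
      (fun g => by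
        change χ g⁻¹ + χ g⁻¹⁻¹ = χ g + χ g⁻¹
        rw [inv_inv]; ring)
    intro θ hθ hθo hθs hθW
    have h1 : ∀ x y : X, tk θ x y = 0 := by
      apply sym_zero (G := G) hc2 hex (fun x y => tk_smul_right θ hθo hc2 x y)
      · intro x y
        rw [← tk_inv θ x y]
        congr 1
        funext g
        exact (hθs g).symm
      · intro h x y
        exact tk_conj hθ h x y
      · intro Φ hΦ
        rw [← pair_Tc hθ Φ]
        exact hθW _ (mem_sp1 ⟨Φ, hΦ, rfl⟩)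
    have h2 : ∑ g : G, θ g * χ g = 0 := pair_zero (X := X) hχ.1 hθ h1 (hχ.ne hc hc2)
    have h3 : ∑ g : G, θ g * χ g⁻¹ = ∑ g : G, θ g * χ g := by
      refine Fintype.sum_equiv (Equiv.inv G) _ _ fun g => ?_
      simp only [Equiv.inv_apply]
      rw [hθs]
    simp only [mul_add, Finset.sum_add_distrib]
    rw [h3, h2, add_zero]

end

end Pool.Agent.J4.H53.Cx
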